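import Mathlib
import Pool.Agent.H.MP_abc6c1_co.Main

namespace Pool.Agent.Results.MP_abc6c1_co.Full

variable {F : Type} [AddCommGroup F] [Module (ZMod 2) F]

/-- Almost perfect nonlinear maps. -/
def IsAPN (f : F → F) : Prop := ∀ a b : F, a ≠ 0 → {x | f (x + a) + f x = b}.ncard ≤ 2

/-- R is a relative difference set relative to N, with index l. -/
def IsRDS (R : Set F) (N : AddSubgroup F) (l : ℕ) : Prop :=
  (∀ d, d ∉ N → {p : F × F | p.1 ∈ R ∧ p.2 ∈ R ∧ p.1 ≠ p.2 ∧ p.1 - p.2 = d}.ncard = l) ∧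
    ∀ d ∈ N, d ≠ 0 → ∀ r ∈ R, ∀ s ∈ R, r - s ≠ d

/-- The image of g is a nontrivial relative difference set. -/
def GivesRDS (g : F → F) : Prop :=
  2 ≤ (Set.range g).ncard ∧ (Set.range g).ncard + 2 ≤ Nat.card F ∧ ∃ N l, IsRDS (Set.range g) N l

/-- EA-equivalence. -/
def EAEquiv (f g : F → F) : Prop :=
  ∃ (A B : F ≃ᵃ[ZMod 2] F) (C : F →ᵃ[ZMod 2] F), ∀ x, g x = A (f (B x)) + C x

/-- CCZ-equivalence. -/
def CCZEquiv (f g : F → F) : Prop :=
  ∃ L : (F × F) ≃ᵃ[ZMod 2] (F × F), L '' {p | p.2 = f p.1} = {p | p.2 = g p.1}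

omit [Module (ZMod 2) F] in
theorem noBot [Finite F] (hF : Nat.card F = 32) (R : Set F) (l : ℕ) (h1 : 2 ≤ R.ncard)
    (h2 : R.ncard + 2 ≤ 32) (h : IsRDS R ⊥ l) : False := by
  classical
  have := Fintype.ofFinite F
  rw [Nat.card_eq_fintype_card] at hF
  rw [Set.ncard_eq_toFinset_card'] at h1 h2
  have e := Finset.card_eq_sum_card_fiberwise (f := fun p : F × F => p.1 - p.2)
    (s := R.toFinset.offDiag) (t := Finset.univ.erase 0) (fun p hp => by
      simp only [Finset.coe_offDiag, Set.mem_offDiag] at hp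
      simpa [sub_eq_zero] using hp.2.2)
  rw [Finset.sum_congr rfl (g := fun _ => l) fun d hd => by
    rw [← h.1 d (by simpa using hd), ← Set.ncard_coe_finset]
    congr 1
    ext p
    simp [and_assoc]] at e
  simp only [Finset.offDiag_card, Finset.sum_const, Finset.card_erase_of_mem (Finset.mem_univ _),
    Finset.card_univ, hF, smul_eq_mul] at e
  generalize R.toFinset.card = k at *
  have : k ≤ 30 := by omega
  interval_cases k <;> omega

theorem ea_ccz {f g : F → F} (h : EAEquiv f g) : CCZEquiv f g := by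
  obtain ⟨A, B, C, h⟩ := h
  refine ⟨AffineEquiv.ofBijective (φ := (B.symm.toAffineMap.comp AffineMap.fst).prod
    (A.toAffineMap.comp AffineMap.snd + C.comp (B.symm.toAffineMap.comp AffineMap.fst))) ⟨?_, ?_⟩, ?_⟩
  · rintro ⟨a, b⟩ ⟨c, d⟩ e
    simp only [AffineMap.prod_apply, AffineMap.comp_apply, AffineMap.coe_add, Pi.add_apply,
      Prod.mk.injEq, AffineEquiv.coe_toAffineMap, AffineMap.coe_fst, AffineMap.coe_snd,
      EmbeddingLike.apply_eq_iff_eq] at e
    obtain ⟨rfl, e⟩ := e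
    simpa using e
  · rintro ⟨a, b⟩
    exact ⟨(B a, A.symm (b - C a)), by simp⟩
  · ext ⟨a, b⟩
    constructor
    · rintro ⟨⟨c, d⟩, h1, h2⟩
      simp only [Set.mem_ofPred_eq] at h1 ⊢
      obtain ⟨rfl, rfl⟩ := Prod.ext_iff.1 h2
      rw [h]
      simp [h1]
    · intro h1
      simp only [Set.mem_ofPred_eq] at h1
      exact ⟨(B a, f (B a)), rfl, by simp [h1, h]⟩

open Pool.Agent.H.MP_abc6c1_co in
theorem main [Finite F] (e : (Fin 5 → ZMod 2) ≃+ F) :
    ∃ f : F → F, IsAPN f ∧ ∀ g, CCZEquiv f g → ¬ GivesRDS g := by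
  obtain ⟨φ, ix, p1, p2, p3, p4, p5⟩ := model e
  have hF : Nat.card F = 32 := by rw [← Nat.card_congr e.toEquiv]; simp
  have c2 : ∀ x : F, x + x = 0 := fun x => by rw [← p3 x, ← p1, Nat.xor_self, p5]
  have sb : ∀ x y : F, x - y = x + y := fun x y => by
    rw [sub_eq_add_neg, neg_eq_of_add_eq_zero_right (c2 y)]
  refine ⟨fun x => φ (T (ix x)), fun a b ha => ?_, ?_⟩
  · refine le_trans ?_ (T_apn (ix a) (p2 a) (fun h => ha (by rw [← p3 a, h, p5])) (ix b) (p2 b))
    rw [← Set.ncard_coe_finset]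
    refine Set.ncard_le_ncard_of_injOn ix (fun x hx => ?_) fun x _ y _ h => by
      rw [← p3 x, h, p3]
    simp only [Set.mem_ofPred_eq, Finset.coe_filter, Finset.mem_range] at hx ⊢
    have h1 := Nat.xor_lt_two_pow (n := 5) (p2 x) (p2 a)
    refine ⟨p2 x, ?_⟩
    rw [← hx, ← p1, p4 _ (Nat.xor_lt_two_pow (n := 5) (T_s _ (p2 _)).1 (T_s _ (p2 _)).1),
      ← p4 _ h1, p1, p3, p3]
  rintro g ⟨L, hL⟩ ⟨h1, h2, N, l, hN⟩
  by_cases hb : N = ⊥
  · exact noBot hF _ l h1 (hF ▸ h2) (hb ▸ hN)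
  obtain ⟨⟨c, hc⟩, hc0⟩ := AddSubgroup.ne_bot_iff_exists_ne_zero.1 hb
  have hc0 : c ≠ 0 := fun h => hc0 (Subtype.ext h)
  set f : F → F := fun x => φ (T (ix x)) with hf
  have ff : ∀ x, f (f x) = x := fun x => by
    simp only [hf]; rw [p4 _ (T_s _ (p2 _)).1, (T_s _ (p2 _)).2, p3]
  let M := L.linear
  have hg : ∀ x, (L (x, f x)).2 = g (L (x, f x)).1 := fun x =>
    (hL ▸ Set.mem_image_of_mem L (show (x, f x) ∈ {p : F × F | p.2 = f p.1} from rfl) :
      L (x, f x) ∈ {p : F × F | p.2 = g p.1})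
  have hM : ∀ x y, M (x + y, f x + f y) = L (x, f x) - L (y, f y) := fun x y => by
    have := L.toAffineMap.linearMap_vsub (x, f x) (y, f y)
    simpa [sb] using this
  have hA : ∀ x y, (M (x + y, f x + f y)).1 = 0 → x = y := fun x y h => by
    rw [hM, Prod.fst_sub, sub_eq_zero] at h
    have : L (x, f x) = L (y, f y) := Prod.ext h (by rw [hg, hg, h])
    exact congrArg Prod.fst (L.injective this)
  have hB : ∀ x y, (M (x + y, f x + f y)).2 ≠ c := fun x y => by
    rw [hM, Prod.snd_sub, hg, hg]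
    exact hN.2 c hc hc0 _ ⟨_, rfl⟩ _ ⟨_, rfl⟩
  have key : ∀ M : (F × F) ≃ₗ[ZMod 2] (F × F), (∀ x y, (M (x + y, f x + f y)).2 ≠ c) →
      (∀ y, (M.symm (0, y)).1 = 0) → False := by
    intro M hB h0
    have s1 : Function.Surjective fun y => (M.symm (0, y)).2 :=
      Finite.surjective_of_injective fun a b h =>
        congrArg Prod.snd (M.symm.injective (Prod.ext (by rw [h0, h0]) h))
    have s2 : Function.Surjective fun y => (M.symm (y, 0)).1 := by
      refine Finite.surjective_of_injective fun a b h => ?_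
      obtain ⟨z, hz⟩ := s1 (M.symm (a - b, 0)).2
      have h3 : M.symm (a - b, 0) = M.symm (a, 0) - M.symm (b, 0) := by rw [← map_sub]; simp
      have : M.symm (0, z) = M.symm (a - b, 0) :=
        Prod.ext (by rw [h0, h3, Prod.fst_sub]; exact (sub_eq_zero.2 h).symm) hz
      exact sub_eq_zero.1 (congrArg Prod.fst (M.symm.injective this)).symm
    obtain ⟨x, y, h⟩ := core φ ix p1 p2 p3 p4 p5
      (((LinearMap.snd (ZMod 2) F F).comp M.toLinearMap).ker.toAddSubgroup) (M.symm (0, c)).2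
      (fun h => hc0 (congrArg Prod.snd (M.symm.map_eq_zero_iff.1 (Prod.ext (h0 c) h))))
      fun a => by
        obtain ⟨y, rfl⟩ := s2 a
        exact ⟨(M.symm (y, 0)).2, by simp⟩
    apply hB x y
    have h4 : (x + y, f x + f y + (M.symm (0, c)).2) = (x + y, f x + f y) + M.symm (0, c) :=
      Prod.ext (by simp [h0]) rfl
    have h5 : (M (x + y, f x + f y + (M.symm (0, c)).2)).2 = 0 := h
    rw [h4, map_add, M.apply_symm_apply, Prod.snd_add, ← sb, sub_eq_zero] at h5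
    exact h5
  rcases cls φ ix p1 p2 p3 p4 p5
    (((LinearMap.fst (ZMod 2) F F).comp M.toLinearMap).ker.toAddSubgroup) (fun y => M.symm (0, y))
    (fun a b h => congrArg Prod.snd (M.symm.injective h)) (fun y => by simp)
    (fun x y h => hA x y h) with h | h
  · exact key M hB h
  · refine key ((LinearEquiv.prodComm _ _ _).trans M) (fun x y => ?_) h
    have := hB (f x) (f y)
    rwa [ff, ff] at this

theorem result : ∃ (n : ℕ) (f : GaloisField 2 n → GaloisField 2 n), 3 ≤ n ∧ IsAPN f ∧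
    (∀ g, EAEquiv f g → ¬ GivesRDS g) ∧ ∀ g, CCZEquiv f g → ¬ GivesRDS g := by
  have e : (Fin 5 → ZMod 2) ≃ₗ[ZMod 2] GaloisField 2 5 :=
    LinearEquiv.ofFinrankEq _ _ (by rw [GaloisField.finrank 2 (by norm_num)]; simp)
  obtain ⟨f, h1, h2⟩ := main e.toAddEquiv
  exact ⟨5, f, by norm_num, h1, fun g h => h2 g (ea_ccz h), h2⟩

end Pool.Agent.Results.MP_abc6c1_co.Full
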